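import Pool.Agent.TH339.MY5

set_option autoImplicit false

/-!
# The nonuniform nonautonomous Markus-Yamabe conjecture

`E` is a finite-dimensional real normed space (`ℝⁿ` with any fixed norm). From
`Pool.Agent.TH339.MY` we use

* `PiecewiseContinuous g`: off a set `D` which is finite in every bounded interval, `g` is
  continuous on `[0,∞)`, and all one-sided limits of `g` exist;
* `IsEvolution A T`: `T(t,s) v = v + ∫_s^t A(u) T(u,s) v du` with `t ↦ T(t,s) v` continuous;
* `IsSolution f t₀ x`: `x' = f(t,x)` on `[t₀,∞)`.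

Idea of the proof. Along a solution `x` one has `x' = (∫_0^1 Jf(t, s x(t)) ds) x`. Taking
`ω(t) = σ(t) x(t)` with a faster and faster sawtooth `σ` with values in `[0,1)`, one obtains a
piecewise continuous `ω` for which `T(t,t₀)⁻¹ x(t)` stays bounded, `T` the evolution operator of
`y' = Jf(t,ω(t)) y`; this gives attractivity. For stability one shows, by concatenating
counterexamples, that `‖T(t,t₀)‖` is bounded uniformly over all `ω` with `‖ω‖ ≤ η`.
-/

namespace Pool.Agent.Results.MP_1775bc_an.MarkusYamabe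

open Set Filter Topology Pool.Agent.TH339.MY

variable {E : Type} [NormedAddCommGroup E] [NormedSpace ℝ E]

/-- The system `x' = A(t) x`, with piecewise continuous `A`, has a nonuniform exponential
dichotomy on `[0,∞)` with the projections `P(t)`. -/
def HasDichotomy (A : ℝ → E →L[ℝ] E) (P : ℝ → E →L[ℝ] E) : Prop :=
  PiecewiseContinuous A ∧ ∃ T : ℝ → ℝ → E →L[ℝ] E, IsEvolution A T ∧
    (∀ t, 0 ≤ t → P t ∘L P t = P t) ∧
    (∀ t s, 0 ≤ t → 0 ≤ s → T t s ∘L P s = P t ∘L T t s) ∧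
    ∃ K γ ε : ℝ, 1 ≤ K ∧ 0 ≤ ε ∧ ε < γ ∧
      (∀ t s, 0 ≤ s → s ≤ t → ‖T t s ∘L P s‖ ≤ K * Real.exp (-γ * (t - s) + ε * s)) ∧
      (∀ t s, 0 ≤ t → t ≤ s →
        ‖T t s ∘L (ContinuousLinearMap.id ℝ E - P s)‖ ≤ K * Real.exp (-γ * (s - t) + ε * s))

/-- (G1): `f` is continuous on `[0,∞) × E`, `C¹` in `x`, and all forward solutions are global. -/
structure G1 (f : ℝ → E → E) : Prop where
  continuousOn : ContinuousOn (Function.uncurry f) (Ici 0 ×ˢ univ)
  contDiff : ∀ t, 0 ≤ t → ContDiff ℝ 1 (f t)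
  global : ∀ t₀, 0 ≤ t₀ → ∀ x₀, ∃ x : ℝ → E, x t₀ = x₀ ∧ IsSolution f t₀ x

/-- (G2): `f(t,0) = 0`. -/
def G2 (f : ℝ → E → E) : Prop := ∀ t, 0 ≤ t → f t 0 = 0

/-- (G3): for every piecewise continuous `ω`, the linear system `y' = Jf(t,ω(t)) y` has a
nonuniform exponential dichotomy with `P(t) = I` for all `t`. -/
def G3 (f : ℝ → E → E) : Prop :=
  ∀ ω : ℝ → E, PiecewiseContinuous ω →
    HasDichotomy (fun t => fderiv ℝ (f t) (ω t)) (fun _ => ContinuousLinearMap.id ℝ E)

/-- Global nonuniform asymptotic stability of the origin. -/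
def GloballyNonuniformlyAsymptoticallyStable (f : ℝ → E → E) : Prop :=
  ∀ t₀, 0 ≤ t₀ →
    (∀ η, 0 < η → ∃ δ, 0 < δ ∧
      ∀ x, IsSolution f t₀ x → ‖x t₀‖ < δ → ∀ t, t₀ ≤ t → ‖x t‖ < η) ∧
    (∀ x, IsSolution f t₀ x → Tendsto x atTop (𝓝 0))

/-- **The nonuniform nonautonomous Markus-Yamabe conjecture holds in every dimension.** -/
theorem result (E : Type) [NormedAddCommGroup E] [NormedSpace ℝ E] [FiniteDimensional ℝ E]
    (f : ℝ → E → E) (h1 : G1 f) (h2 : G2 f) (h3 : G3 f) :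
    GloballyNonuniformlyAsymptoticallyStable f := by
  have hcs : CompleteSpace E := FiniteDimensional.complete ℝ E
  have hpwc : ∀ ω : ℝ → E, Continuous ω → PiecewiseContinuous ω := by
    intro ω hω
    exact ⟨∅, by simp, fun t _ _ => hω.continuousWithinAt,
      fun t _ => ⟨ω t, (hω.tendsto t).mono_left nhdsWithin_le_nhds⟩,
      fun t _ => ⟨ω t, (hω.tendsto t).mono_left nhdsWithin_le_nhds⟩⟩
  have hreg : Reg f := by
    refine ⟨h1.continuousOn, h1.contDiff, ?_, h2⟩
    apply jacobian_continuous h1.continuousOn h1.contDiff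
    · intro ω hω t ht
      obtain ⟨⟨D, -, -, hr, -⟩, -⟩ := h3 ω (hpwc ω hω)
      exact hr t ht
    · intro ω hω t ht
      obtain ⟨⟨D, -, -, -, hl⟩, -⟩ := h3 ω (hpwc ω hω)
      exact hl t ht
  intro t₀ h0
  apply main_reg hreg _ h0
  intro ω hω
  obtain ⟨hA, T, hT, -, -, K, γ, ε, hK, hε, hγ, hb, -⟩ := h3 ω hω
  have hb' : ∀ t s, 0 ≤ s → s ≤ t → ‖T t s‖ ≤ K * Real.exp (-γ * (t - s) + ε * s) := by
    intro t s hs hst
    have := hb t s hs hst
    rwa [ContinuousLinearMap.comp_id] at this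
  refine ⟨hA, T, hT, fun s hs => ⟨⟨K * Real.exp (ε * s), fun t ht => ?_⟩, ?_⟩⟩
  · refine (hb' t s hs ht).trans ?_
    have : 0 ≤ γ * (t - s) := mul_nonneg (hε.trans hγ.le) (by linarith)
    gcongr
    linarith
  · have hlim : Tendsto (fun t => K * Real.exp (-γ * (t - s) + ε * s)) atTop (𝓝 0) := by
      have e1 : Tendsto (fun t : ℝ => -γ * (t - s) + ε * s) atTop atBot := by
        apply tendsto_atBot_add_const_right
        apply Tendsto.const_mul_atTop_of_neg (by linarith)
        exact tendsto_atTop_add_const_right _ _ tendsto_id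
      simpa using (Real.tendsto_exp_atBot.comp e1).const_mul K
    refine squeeze_zero' (Eventually.of_forall fun t => norm_nonneg _) ?_ hlim
    filter_upwards [eventually_ge_atTop s] with t ht
    exact hb' t s hs ht

end Pool.Agent.Results.MP_1775bc_an.MarkusYamabe
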